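import Mathlib

/-! Normalised discrete valuations of a field `K`, trivial on a subfield `k`. -/

set_option autoImplicit false

namespace FF

/-- A normalised discrete valuation of `K`, trivial on `k`. -/
@[ext] structure Place (k K : Type*) [Field k] [Field K] [Algebra k K] where
  ord : K → ℤ
  ord_zero : ord 0 = 0
  ord_mul : ∀ {f g : K}, f ≠ 0 → g ≠ 0 → ord (f * g) = ord f + ord g
  ord_add : ∀ {f g : K}, f ≠ 0 → g ≠ 0 → f + g ≠ 0 → min (ord f) (ord g) ≤ ord (f + g)
  ord_const : ∀ {c : k}, c ≠ 0 → ord (algebraMap k K c) = 0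
  surj : ∃ t : K, t ≠ 0 ∧ ord t = 1

namespace Place

variable {k K : Type*} [Field k] [Field K] [Algebra k K] (P : Place k K)

theorem ord_one : P.ord 1 = 0 := by
  have := P.ord_const (one_ne_zero (α := k))
  rwa [map_one] at this

theorem ord_neg_one : P.ord (-1) = 0 := by
  have := P.ord_const (c := (-1 : k)) (by simp)
  rwa [map_neg, map_one] at this

theorem ord_neg (f : K) : P.ord (-f) = P.ord f := by
  by_cases hf : f = 0
  · simp [hf]
  · rw [← neg_one_mul, P.ord_mul (by simp) hf, P.ord_neg_one, zero_add]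

theorem ord_inv (f : K) : P.ord f⁻¹ = - P.ord f := by
  by_cases hf : f = 0
  · simp [hf, P.ord_zero]
  · have := P.ord_mul (inv_ne_zero hf) hf
    rw [inv_mul_cancel₀ hf, P.ord_one] at this
    omega

theorem ord_div {f g : K} (hf : f ≠ 0) (hg : g ≠ 0) : P.ord (f / g) = P.ord f - P.ord g := by
  rw [div_eq_mul_inv, P.ord_mul hf (inv_ne_zero hg), P.ord_inv]; ring

theorem ord_pow (f : K) (n : ℕ) : P.ord (f ^ n) = n * P.ord f := by
  by_cases hf : f = 0
  · subst hf
    rcases Nat.eq_zero_or_pos n with rfl | hn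
    · simp [P.ord_one]
    · rw [zero_pow hn.ne', P.ord_zero, mul_zero]
  · induction n with
    | zero => simp [P.ord_one]
    | succ n ih =>
      rw [pow_succ, P.ord_mul (pow_ne_zero _ hf) hf, ih]; push_cast; ring

theorem ord_zpow (f : K) (n : ℤ) : P.ord (f ^ n) = n * P.ord f := by
  cases n with
  | ofNat n => simpa using P.ord_pow f n
  | negSucc n =>
    rw [zpow_negSucc, P.ord_inv, P.ord_pow]
    simp only [Int.negSucc_eq]
    push_cast; ring

theorem ord_sub {f g : K} (hf : f ≠ 0) (hg : g ≠ 0) (h : f - g ≠ 0) :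
    min (P.ord f) (P.ord g) ≤ P.ord (f - g) := by
  rw [sub_eq_add_neg] at h ⊢
  have := P.ord_add hf (neg_ne_zero.2 hg) h
  rwa [P.ord_neg] at this

theorem ord_add_eq {f g : K} (hf : f ≠ 0) (hg : g ≠ 0) (h : P.ord f < P.ord g) :
    f + g ≠ 0 ∧ P.ord (f + g) = P.ord f := by
  have h0 : f + g ≠ 0 := by
    intro h0
    have : f = -g := eq_neg_of_add_eq_zero_left h0
    rw [this, P.ord_neg] at h
    exact lt_irrefl _ h
  refine ⟨h0, le_antisymm ?_ ?_⟩
  · by_contra hc
    push Not at hc
    have h1 := P.ord_sub (f := f + g) (g := g) h0 hg (by simpa using hf)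
    rw [add_sub_cancel_right] at h1
    have : min (P.ord (f + g)) (P.ord g) > P.ord f := lt_min hc h
    omega
  · have := P.ord_add hf hg h0
    rwa [min_eq_left h.le] at this

/-- `f` is regular at `P`. -/
def Reg (f : K) : Prop := f = 0 ∨ 0 ≤ P.ord f

theorem reg_iff {f : K} (hf : f ≠ 0) : P.Reg f ↔ 0 ≤ P.ord f := by simp [Reg, hf]

theorem reg_zero : P.Reg 0 := Or.inl rfl
theorem reg_one : P.Reg 1 := Or.inr (by rw [P.ord_one])

theorem reg_mul {f g : K} (hf : P.Reg f) (hg : P.Reg g) : P.Reg (f * g) := by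
  by_cases h1 : f = 0
  · left; simp [h1]
  by_cases h2 : g = 0
  · left; simp [h2]
  right
  rw [P.ord_mul h1 h2]
  exact add_nonneg ((P.reg_iff h1).1 hf) ((P.reg_iff h2).1 hg)

theorem reg_add {f g : K} (hf : P.Reg f) (hg : P.Reg g) : P.Reg (f + g) := by
  by_cases h1 : f = 0
  · rwa [h1, zero_add]
  by_cases h2 : g = 0
  · rwa [h2, add_zero]
  by_cases h3 : f + g = 0
  · exact Or.inl h3
  · right
    exact (le_min ((P.reg_iff h1).1 hf) ((P.reg_iff h2).1 hg)).trans (P.ord_add h1 h2 h3)

theorem reg_neg {f : K} (hf : P.Reg f) : P.Reg (-f) := by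
  rcases hf with rfl | hf
  · left; simp
  · right; rwa [P.ord_neg]

theorem reg_const (c : k) : P.Reg (algebraMap k K c) := by
  by_cases h : c = 0
  · left; simp [h]
  · right; rw [P.ord_const h]

/-- The valuation ring. -/
def O : ValuationSubring K where
  carrier := {f | P.Reg f}
  mul_mem' := P.reg_mul
  one_mem' := P.reg_one
  add_mem' := P.reg_add
  zero_mem' := P.reg_zero
  neg_mem' := P.reg_neg
  mem_or_inv_mem' := by
    intro f
    by_cases hf : f = 0
    · left; exact Or.inl hf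
    · rcases le_or_gt 0 (P.ord f) with h | h
      · left; exact Or.inr h
      · right; right; rw [P.ord_inv]; omega

theorem mem_O {f : K} : f ∈ P.O ↔ P.Reg f := Iff.rfl

/-- The residue field. -/
def RF : Type _ := IsLocalRing.ResidueField P.O

noncomputable instance : Field P.RF := inferInstanceAs (Field (IsLocalRing.ResidueField P.O))

/-- The residue map as a ring homomorphism on the valuation ring. -/
noncomputable def resHom : P.O →+* P.RF := IsLocalRing.residue P.O

theorem resHom_surjective : Function.Surjective P.resHom := IsLocalRing.residue_surjective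

open Classical in
/-- The residue of an element of `K` (zero if it is not regular). -/
noncomputable def red (f : K) : P.RF := if h : P.Reg f then P.resHom ⟨f, h⟩ else 0

theorem red_of_reg {f : K} (h : P.Reg f) : P.red f = P.resHom ⟨f, h⟩ := dif_pos h

theorem red_surjective (c : P.RF) : ∃ f : K, P.Reg f ∧ P.red f = c := by
  obtain ⟨⟨f, hf⟩, rfl⟩ := P.resHom_surjective c
  exact ⟨f, hf, P.red_of_reg hf⟩

theorem red_zero : P.red 0 = 0 := by
  rw [P.red_of_reg P.reg_zero]; exact map_zero P.resHom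

theorem red_one : P.red 1 = 1 := by
  rw [P.red_of_reg P.reg_one]; exact map_one P.resHom

theorem red_add {f g : K} (hf : P.Reg f) (hg : P.Reg g) : P.red (f + g) = P.red f + P.red g := by
  rw [P.red_of_reg hf, P.red_of_reg hg, P.red_of_reg (P.reg_add hf hg), ← map_add]; rfl

theorem red_mul {f g : K} (hf : P.Reg f) (hg : P.Reg g) : P.red (f * g) = P.red f * P.red g := by
  rw [P.red_of_reg hf, P.red_of_reg hg, P.red_of_reg (P.reg_mul hf hg), ← map_mul]; rfl

theorem red_neg {f : K} (hf : P.Reg f) : P.red (-f) = -P.red f := by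
  rw [P.red_of_reg hf, P.red_of_reg (P.reg_neg hf), ← map_neg]; rfl

theorem red_sub {f g : K} (hf : P.Reg f) (hg : P.Reg g) : P.red (f - g) = P.red f - P.red g := by
  rw [sub_eq_add_neg, P.red_add hf (P.reg_neg hg), P.red_neg hg, sub_eq_add_neg]

theorem isUnit_O_iff {f : K} (hf : P.Reg f) :
    IsUnit (⟨f, hf⟩ : P.O) ↔ f ≠ 0 ∧ P.ord f = 0 := by
  constructor
  · rintro ⟨u, hu⟩
    have h1 : f * (u⁻¹ : P.Oˣ).1.1 = 1 := by
      have : (u.1 : P.O) * (u⁻¹ : P.Oˣ).1 = 1 := u.mul_inv
      rw [hu] at this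
      exact congrArg Subtype.val this
    have hf0 : f ≠ 0 := left_ne_zero_of_mul_eq_one h1
    have hg0 : (u⁻¹ : P.Oˣ).1.1 ≠ 0 := right_ne_zero_of_mul_eq_one h1
    refine ⟨hf0, ?_⟩
    have h2 := P.ord_mul hf0 hg0
    rw [h1, P.ord_one] at h2
    have h3 := (P.reg_iff hf0).1 hf
    have h4 := (P.reg_iff hg0).1 (u⁻¹ : P.Oˣ).1.2
    omega
  · rintro ⟨hf0, h0⟩
    have hi : P.Reg f⁻¹ := Or.inr (by rw [P.ord_inv]; omega)
    exact IsUnit.of_mul_eq_one ⟨f⁻¹, hi⟩ (Subtype.ext (mul_inv_cancel₀ hf0))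

theorem red_eq_zero_iff {f : K} (hf : P.Reg f) : P.red f = 0 ↔ (f = 0 ∨ 0 < P.ord f) := by
  rw [P.red_of_reg hf]
  have : P.resHom ⟨f, hf⟩ = 0 ↔ ¬ IsUnit (⟨f, hf⟩ : P.O) := by
    change IsLocalRing.residue P.O _ = 0 ↔ _
    rw [IsLocalRing.residue_eq_zero_iff]; rfl
  rw [this, P.isUnit_O_iff hf]
  by_cases h0 : f = 0
  · simp [h0]
  · have := (P.reg_iff h0).1 hf
    simp only [h0, ne_eq, not_false_eq_true, true_and, false_or]
    omega

theorem red_ne_zero {f : K} (h0 : f ≠ 0) (h : P.ord f = 0) : P.red f ≠ 0 := by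
  rw [Ne, P.red_eq_zero_iff (Or.inr h.ge)]
  push Not
  exact ⟨h0, h.le⟩

theorem red_pow {f : K} (hf : P.Reg f) (n : ℕ) : P.red (f ^ n) = P.red f ^ n := by
  induction n with
  | zero => simp [P.red_one]
  | succ n ih =>
    have : P.Reg (f ^ n) := by
      clear ih
      induction n with
      | zero => rw [pow_zero]; exact P.reg_one
      | succ n ih => rw [pow_succ]; exact P.reg_mul ih hf
    rw [pow_succ, P.red_mul this hf, ih, pow_succ]

noncomputable def constHom : k →+* P.RF where
  toFun c := P.red (algebraMap k K c)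
  map_one' := by rw [map_one, P.red_one]
  map_mul' a b := by rw [map_mul, P.red_mul (P.reg_const a) (P.reg_const b)]
  map_zero' := by rw [map_zero, P.red_zero]
  map_add' a b := by rw [map_add, P.red_add (P.reg_const a) (P.reg_const b)]

noncomputable instance : Algebra k P.RF := P.constHom.toAlgebra

theorem algebraMap_RF (c : k) : algebraMap k P.RF c = P.red (algebraMap k K c) := rfl

/-- the degree of a place -/
noncomputable def deg : ℕ := Module.finrank k P.RF

theorem eq_of_le (P Q : Place k K) (h : ∀ f : K, f ≠ 0 → 0 ≤ P.ord f → 0 ≤ Q.ord f) : P = Q := by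
  have h0 : ∀ f : K, f ≠ 0 → P.ord f = 0 → Q.ord f = 0 := by
    intro f hf h1
    have h2 := h f hf h1.ge
    have h3 := h f⁻¹ (inv_ne_zero hf) (by rw [P.ord_inv, h1]; simp)
    rw [Q.ord_inv] at h3
    omega
  obtain ⟨t, ht0, ht⟩ := P.surj
  have h1 : ∀ f : K, f ≠ 0 → Q.ord f = P.ord f * Q.ord t := by
    intro f hf
    have h2 : Q.ord (f * t ^ (- P.ord f)) = 0 := by
      apply h0 _ (mul_ne_zero hf (zpow_ne_zero _ ht0))
      rw [P.ord_mul hf (zpow_ne_zero _ ht0), P.ord_zpow, ht]; ring
    rw [Q.ord_mul hf (zpow_ne_zero _ ht0), Q.ord_zpow] at h2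
    linarith
  have h2 : 0 ≤ Q.ord t := h t ht0 (by omega)
  obtain ⟨s, hs0, hs⟩ := Q.surj
  have h3 := h1 s hs0
  rw [hs] at h3
  have h4 : Q.ord t = 1 := by
    have : Q.ord t ∣ 1 := ⟨P.ord s, by rw [h3]; ring⟩
    exact Int.eq_one_of_dvd_one h2 this
  ext f
  by_cases hf : f = 0
  · rw [hf, P.ord_zero, Q.ord_zero]
  · rw [h1 f hf, h4, mul_one]

end Place

open WithZero in
/-- A place from a surjective `ℤᵐ⁰`-valued valuation. -/
noncomputable def Place.ofVal {k K : Type*} [Field k] [Field K] [Algebra k K]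
    (v : Valuation K (WithZero (Multiplicative ℤ)))
    (hs : ∃ t : K, v t = WithZero.exp (-1)) (hc : ∀ c : k, c ≠ 0 → v (algebraMap k K c) = 1) :
    Place k K where
  ord f := - WithZero.log (v f)
  ord_zero := by simp
  ord_mul := by
    intro f g hf hg
    rw [map_mul, WithZero.log_mul ((Valuation.ne_zero_iff v).2 hf) ((Valuation.ne_zero_iff v).2 hg)]
    ring
  ord_add := by
    intro f g hf hg hfg
    have h1 := v.map_add f g
    have hvf := (Valuation.ne_zero_iff v).2 hf
    have hvg := (Valuation.ne_zero_iff v).2 hg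
    have hvfg := (Valuation.ne_zero_iff v).2 hfg
    rcases le_max_iff.1 h1 with h | h
    · rw [← WithZero.log_le_log hvfg hvf] at h
      exact (min_le_left _ _).trans (by omega)
    · rw [← WithZero.log_le_log hvfg hvg] at h
      exact (min_le_right _ _).trans (by omega)
  ord_const := by
    intro c hcc
    rw [hc c hcc]; simp
  surj := by
    obtain ⟨t, ht⟩ := hs
    refine ⟨t, ?_, ?_⟩
    · rintro rfl
      rw [map_zero] at ht
      exact (WithZero.exp_ne_zero ht.symm)
    · rw [ht]; simp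

end FF
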