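import Pool.Agent.Helper12.G.R_seed8.Helper386.D5V.Helper399_OverDefs

/-! FF4, part a: restriction of places, the valuation ring is a DVR. -/

set_option autoImplicit false
set_option linter.all false
set_option linter.overlappingInstances false

open Module FF

namespace FF

section
variable {k K K' : Type*} [Field k] [Field K] [Field K'] [Algebra k K] [Algebra k K'] [Algebra K K']
  [IsScalarTower k K K']

theorem exists_over (w : Place k K') (h : ∃ f : K, w.ord (algebraMap K K' f) ≠ 0) :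
    ∃ (e : ℕ) (w0 : Place k K), Over w w0 e := by
  classical
  let φ : K → ℤ := fun f => w.ord (algebraMap K K' f)
  have hφ0 : φ 0 = 0 := by simp [φ, w.ord_zero]
  have hne : ∀ {f : K}, f ≠ 0 → algebraMap K K' f ≠ 0 := fun hf => by simpa using hf
  have hφm : ∀ {f g : K}, f ≠ 0 → g ≠ 0 → φ (f * g) = φ f + φ g := by
    intro f g hf hg
    simp only [φ, map_mul]
    exact w.ord_mul (hne hf) (hne hg)
  have hφinv : ∀ f : K, φ f⁻¹ = - φ f := by
    intro f
    simp only [φ, map_inv₀]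
    exact w.ord_inv _
  have hφz : ∀ (f : K) (n : ℤ), φ (f ^ n) = n * φ f := by
    intro f n
    simp only [φ, map_zpow₀]
    exact w.ord_zpow _ _
  -- the minimal positive value
  have hex : ∃ n : ℕ, 0 < n ∧ ∃ f : K, f ≠ 0 ∧ φ f = n := by
    obtain ⟨f, hf⟩ := h
    have hf0 : f ≠ 0 := by
      rintro rfl
      exact hf hφ0
    rcases lt_or_gt_of_ne hf with hlt | hgt
    · refine ⟨(-(φ f)).toNat, ?_, f⁻¹, inv_ne_zero hf0, ?_⟩
      · have : φ f < 0 := hlt
        omega
      · rw [hφinv]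
        have : φ f < 0 := hlt
        omega
    · refine ⟨(φ f).toNat, ?_, f, hf0, ?_⟩
      · have : 0 < φ f := hgt
        omega
      · have : 0 < φ f := hgt
        omega
  let e := Nat.find hex
  obtain ⟨he0, t, ht0, ht⟩ := Nat.find_spec hex
  have hdvd : ∀ f : K, (e : ℤ) ∣ φ f := by
    intro f
    by_cases hf : f = 0
    · rw [hf, hφ0]; exact dvd_zero _
    have hE : (0 : ℤ) < e := by exact_mod_cast he0
    have h1 : φ (f * t ^ (-(φ f / e))) = φ f % e := by
      rw [hφm hf (zpow_ne_zero _ ht0), hφz, ht]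
      have := Int.emod_add_mul_ediv (φ f) e
      have h2 : (Nat.find hex : ℤ) = e := rfl
      rw [h2]
      linarith
    have h2 := Int.emod_nonneg (φ f) hE.ne'
    have h3 := Int.emod_lt_of_pos (φ f) hE
    by_contra hnd
    have h4 : φ f % e ≠ 0 := fun h0 => hnd (Int.dvd_of_emod_eq_zero h0)
    have h5 : (φ f % e).toNat < Nat.find hex := by
      have : (Nat.find hex : ℤ) = e := rfl
      omega
    apply Nat.find_min hex h5
    refine ⟨by omega, f * t ^ (-(φ f / e)), mul_ne_zero hf (zpow_ne_zero _ ht0), ?_⟩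
    rw [h1]
    omega
  have hE : (0 : ℤ) < e := by exact_mod_cast he0
  have hdiv : ∀ f, φ f = e * (φ f / e) := fun f => (Int.mul_ediv_cancel' (hdvd f)).symm
  refine ⟨e, ⟨fun f => φ f / e, ?_, ?_, ?_, ?_, ?_⟩, ?_⟩
  · rw [hφ0]; simp
  · intro f g hf hg
    rw [hφm hf hg, Int.add_ediv_of_dvd_left (hdvd f)]
  · intro f g hf hg hfg
    have h1 : min (φ f) (φ g) ≤ φ (f + g) := by
      simp only [φ, map_add]
      exact w.ord_add (hne hf) (hne hg) (by rw [← map_add]; exact hne hfg)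
    rcases min_le_iff.1 h1 with h2 | h2
    · exact min_le_iff.2 (Or.inl (Int.ediv_le_ediv hE h2))
    · exact min_le_iff.2 (Or.inr (Int.ediv_le_ediv hE h2))
  · intro c hc
    have : φ (algebraMap k K c) = 0 := by
      simp only [φ]
      rw [← IsScalarTower.algebraMap_apply k K K']
      exact w.ord_const hc
    rw [this]; simp
  · refine ⟨t, ht0, ?_⟩
    rw [ht]
    exact Int.ediv_self hE.ne'
  · refine ⟨he0, fun f => ?_⟩
    exact hdiv f

end

section dvr

variable {k K : Type*} [Field k] [Field K] [Algebra k K] (P : Place k K)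

theorem Place.isDVR : IsDiscreteValuationRing P.O := by
  obtain ⟨t, ht0, ht⟩ := P.surj
  have htr : P.Reg t := Or.inr (by omega)
  have hirr : Irreducible (⟨t, htr⟩ : P.O) := by
    constructor
    · rw [P.isUnit_O_iff htr]
      rintro ⟨_, h⟩
      omega
    · rintro ⟨a, ha⟩ ⟨b, hb⟩ hab
      have hab' : t = a * b := congrArg Subtype.val hab
      have ha0 : a ≠ 0 := by rintro rfl; apply ht0; simp [hab']
      have hb0 : b ≠ 0 := by rintro rfl; apply ht0; simp [hab']
      have h1 := P.ord_mul ha0 hb0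
      rw [← hab', ht] at h1
      have h2 := (P.reg_iff ha0).1 ha
      have h3 := (P.reg_iff hb0).1 hb
      rw [P.isUnit_O_iff ha, P.isUnit_O_iff hb]
      by_cases h4 : P.ord a = 0
      · exact Or.inl ⟨ha0, h4⟩
      · exact Or.inr ⟨hb0, by omega⟩
  apply IsDiscreteValuationRing.ofHasUnitMulPowIrreducibleFactorization
  refine ⟨⟨t, htr⟩, hirr, ?_⟩
  rintro ⟨f, hf⟩ hf0
  have hf0' : f ≠ 0 := fun h => hf0 (Subtype.ext h)
  have h1 := (P.reg_iff hf0').1 hf
  refine ⟨(P.ord f).toNat, ?_⟩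
  have hu : P.ord (f * (t ^ (P.ord f).toNat)⁻¹) = 0 := by
    rw [P.ord_mul hf0' (inv_ne_zero (pow_ne_zero _ ht0)), P.ord_inv, P.ord_pow, ht]
    omega
  have hu0 : f * (t ^ (P.ord f).toNat)⁻¹ ≠ 0 := mul_ne_zero hf0' (inv_ne_zero (pow_ne_zero _ ht0))
  have hur : P.Reg (f * (t ^ (P.ord f).toNat)⁻¹) := Or.inr hu.ge
  obtain ⟨u, hu'⟩ := (P.isUnit_O_iff hur).2 ⟨hu0, hu⟩
  refine ⟨u, ?_⟩
  apply Subtype.ext
  have h2 : ((u : P.O) : K) = f * (t ^ (P.ord f).toNat)⁻¹ := congrArg Subtype.val hu'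
  show ((⟨t, htr⟩ : P.O) ^ (P.ord f).toNat * (u : P.O) : P.O).1 = f
  have h3 : (((⟨t, htr⟩ : P.O) ^ (P.ord f).toNat * (u : P.O) : P.O) : K) =
      t ^ (P.ord f).toNat * ((u : P.O) : K) := by
    push_cast
    rfl
  refine h3.trans ?_
  rw [h2]
  field_simp

end dvr

end FF
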